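import Pool.Agent.Results.MP_a78e8f_nt.ThinFamilies
import Pool.Agent.X31.F3

/-!
# Level of distribution `N / exp (K (log log N) ^ 2)` on average over residues near the values of generalised
# polynomials

`f(t) = ∑ a_x t ^ x` is an arbitrary finite real combination of real powers of `t` with a positive largest exponent `c`
(for instance `t ^ {3/2}`, `√2 t ^ 3 + t`). Let `A ⊆ {1, ..., Y}`, `Y ^ c ≈ N`, be an ARBITRARY dense set (for instance: the
primes), and choose ARBITRARY integers `v n` with `|v n - (b + f(n))| ≤ log ^ D N`, `n ∈ A`. So there are only about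
`N ^ (1 / c)` residues, with an arbitrary `c`. Along the residues `v n` the primes up to `B N` have the level of distribution
`N / exp (K (log log N) ^ 2)`: with ABSOLUTE VALUES for every modulus, arbitrary coefficients of the residues and arbitrary
lengths `x(q)`; and, with arbitrary weights on the moduli, for almost every individual residue.

The bound for the real additive energy of all generalised polynomials is from `Pool.Agent.X31` (`gp_EB`, in this
run); the theorem for families of small energy is in the starting files (`MP_a78e8f_nt.ThinFamilies`).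
-/

set_option autoImplicit false

namespace Pool.Agent.Results.MP_a78e8f_nt.GeneralisedPolynomialAverages

open Finset

/-- the generalised polynomial with the exponents `x ∈ F` and the coefficients `a x` -/
noncomputable def f (F : Finset ℝ) (a : ℝ → ℝ) (t : ℝ) : ℝ := ∑ x ∈ F, a x * t ^ x

/-- `ψ(x; q, a) - x / φ(q)`, where `ψ(x; q, a)` is the sum of `Λ(n)` over the `1 ≤ n ≤ x` with `n ≡ a (mod q)`. -/
noncomputable def E (x q : ℕ) (a : ℤ) : ℝ :=
  ∑ n ∈ (Icc 1 x).filter (fun n : ℕ => (n : ℤ) ≡ a [ZMOD q]), ArithmeticFunction.vonMangoldt n -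
    (x : ℝ) / Nat.totient q

/-- `N / exp (K (log log N) ^ 2)` -/
noncomputable def level (K N : ℕ) : ℝ := N / Real.exp (K * Real.log (Real.log N) ^ 2)

/-- `τ(q)`, the number of the divisors of `q` -/
noncomputable def τ (q : ℕ) : ℝ := q.divisors.card

open Classical in
/-- The primes up to `B N` have the level of distribution `N / exp (K (log log N) ^ 2)` along the family `v` of
residues:

* for all coefficients `|c i| ≤ log ^ T N` of the members of the family and all functions `x(q) ≤ B N`, the sum over the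
  `q ≤ N / exp (K (log log N) ^ 2)` of `τ(q) ^ T` times the ABSOLUTE VALUE of the sum of `c i E(x(q); q, v i)` over the
  members `v i > 0` coprime to `q` is at most `#ι N / log ^ U N`;
* for every function `λ` on the moduli with `|λ(q)| ≤ (τ(q) log N) ^ T` and all functions `x(q) ≤ B N`, for all but at most
  `#ι / log ^ U N` members `a > 0` of the family, the sum of `λ(q) E(x(q); q, a)` over the `q ≤ Q` coprime to `a` is at most
  `N / log ^ U N` in absolute value for ALL `Q ≤ N / exp (K (log log N) ^ 2)`. -/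
def Level (K N B T U : ℕ) {ι : Type} [Fintype ι] (v : ι → ℤ) : Prop :=
  (∀ c : ι → ℝ, (∀ i, |c i| ≤ Real.log N ^ T) → ∀ x : ℕ → ℕ, (∀ q, x q ≤ B * N) →
    ∑ q ∈ Icc 1 ⌊level K N⌋₊, τ q ^ T *
      |∑ i ∈ univ.filter (fun i : ι => 0 < v i ∧ Int.gcd (v i) q = 1), c i * E (x q) q (v i)| ≤
        Fintype.card ι * N / Real.log N ^ U) ∧
  (∀ lam : ℕ → ℝ, (∀ q, |lam q| ≤ (τ q * Real.log N) ^ T) → ∀ x : ℕ → ℕ, (∀ q, x q ≤ B * N) →
    ((univ.filter (fun i : ι => 0 < v i ∧ ∃ Q : ℕ, (Q : ℝ) ≤ level K N ∧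
      N / Real.log N ^ U < |∑ q ∈ (Icc 1 Q).filter (fun q : ℕ => Int.gcd (v i) q = 1), lam q * E (x q) q (v i)|)).card : ℝ) ≤
        Fintype.card ι / Real.log N ^ U)

/-- Let `F` be a finite set of real numbers with the maximum `c > 0`, `a c ≠ 0`, and `f(t) = ∑_{x ∈ F} a x * t ^ x`. Let
`B`, `D`, `T`, `U` be natural numbers. There is a `K` such that for all sufficiently large `N`, for all `Y` with
`N / log ^ D N ≤ Y ^ c ≤ N`, for EVERY set `A ⊆ {1, ..., Y}` with at least `Y / log ^ D N` elements, for every real number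
`b` with `|b| ≤ N` and for ALL integers `v n`, `n ∈ A`, with `|v n - (b + f(n))| ≤ log ^ D N`, the primes up to `B N` have the
level of distribution `N / exp (K (log log N) ^ 2)` along the family `v`. -/
theorem result (F : Finset ℝ) (a : ℝ → ℝ) (c : ℝ) (hcF : c ∈ F) (hmax : ∀ x ∈ F, x ≤ c)
    (hac : a c ≠ 0) (hc : 0 < c) (B D T U : ℕ) :
    ∃ K N₀ : ℕ, ∀ N : ℕ, N₀ ≤ N → ∀ Y : ℕ, (N : ℝ) / Real.log N ^ D ≤ (Y : ℝ) ^ c → (Y : ℝ) ^ c ≤ N →
      ∀ A : Finset ℕ, A ⊆ Icc 1 Y → (Y : ℝ) / Real.log N ^ D ≤ A.card → ∀ b : ℝ, |b| ≤ N →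
      ∀ v : {n : ℕ // n ∈ A} → ℤ, (∀ n, |(v n : ℝ) - (b + f F a (n.1 : ℕ))| ≤ Real.log N ^ D) →
        Level K N B T U v := by
  classical
  obtain ⟨h, hh, h1⟩ := Pool.Agent.X31.gp_energy F a c hcF hmax hac hc
  obtain ⟨C, B', N₁, h1⟩ := h1 D
  obtain ⟨K, N₂, h2⟩ := Pool.Agent.Results.MP_a78e8f_nt.ThinFamilies.level_of h B (max B B') C T U (le_max_left _ _)
  refine ⟨K, N₁ + N₂ + 3, fun N hN Y hY1 hY2 A hA hAc b hb v hv => ?_⟩
  have hl : 0 < Real.log N := Real.log_pos (by exact_mod_cast (by omega : 1 < N))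
  rw [div_le_iff₀ (by positivity)] at hY1 hAc
  obtain ⟨e1, e2⟩ := h1 N (by omega) Y hY2 hY1 A hA hAc b hb v (fun i => by
    have := hv i
    unfold f at this
    unfold Pool.Agent.X31.gp
    exact this)
  obtain ⟨k1, k2⟩ := h2 N (by omega) _ v (fun i => (e1 i).trans (by
    apply mul_le_mul_of_nonneg_right _ (Int.natCast_nonneg _)
    exact_mod_cast le_max_right B B')) (e2 h le_rfl)
  exact ⟨k2, fun lam hlam x hx => (k1 lam hlam).2 x hx⟩

end Pool.Agent.Results.MP_a78e8f_nt.GeneralisedPolynomialAverages
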