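import Pool.Agent.Y882.EHF
import Pool.Agent.X60.PolyFam2

/-!
# The Elliott-Halberstam bound for the roots of polynomials, with few exceptional polynomials

For a polynomial `f` the bound of the problem, at every level `θ < 1`, is considered for the residue
classes `a` modulo `q` with `f(a) ≡ 0 (mod q)` (all of them, `q` squarefree, with absolute values and
with powers of the divisor function as weights), and for the number of the primes `p ≤ x` with
`q ∣ f(p)`. In every family of pairwise coprime primitive polynomials of bounded degree, with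
coefficients of polynomial size, all but at most `(Q² / x) (log x)^B` members satisfy the bound. In
particular this holds for the family of all the irreducible polynomials of degree at most `k` with
coefficients at most `x^D`. For `Q = x^θ`, `θ < 1/2`, there are no exceptions (Bombieri-Vinogradov).

Proof. Choose for every `q` the worst root class. The classes for two coprime polynomials coincide only
for the divisors `q` of their resultant. (If there is no root class, a class `n(f)` is chosen which is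
not a root of any member of the family.) So the theorem on separated residue systems
(`Pool.Agent.Y882.EHF.few`, from the starting files) can be applied.
-/

set_option autoImplicit false

namespace Pool.Agent.Results.MP_a78e8f_nt.PolynomialsAtPrimes

open Finset Polynomial Filter

/-- `π(x)` -/
def primePi (x : ℕ) : ℕ := ((Icc 1 x).filter (fun p : ℕ => p.Prime)).card

/-- `π(x; q, a)` -/
def primePiAP (x q a : ℕ) : ℕ := ((Icc 1 x).filter (fun p : ℕ => p.Prime ∧ p ≡ a [MOD q])).card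

/-- The classes `a` modulo `q` (`0 ≤ a < q`), prime to `q`, with `q ∣ f(a)`. -/
def rootClasses (f : ℤ[X]) (q : ℕ) : Finset ℕ :=
  (range q).filter (fun a => a.Coprime q ∧ (q : ℤ) ∣ f.eval (a : ℤ))

/-- The number of the primes `p ≤ x` with `q ∣ f(p)`. -/
def primeValues (f : ℤ[X]) (x q : ℕ) : ℕ :=
  ((Icc 1 x).filter (fun p : ℕ => p.Prime ∧ (q : ℤ) ∣ f.eval (p : ℤ))).card

/-- The sum of `|π(x; q, a) - π(x) / φ(q)|` over the root classes `a` of `f` modulo `q`. -/
noncomputable def classError (f : ℤ[X]) (x q : ℕ) : ℝ :=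
  ∑ a ∈ rootClasses f q, |(primePiAP x q a : ℝ) - (primePi x : ℝ) / (Nat.totient q : ℝ)|

/-- The absolute value of the difference of the number of the primes `p ≤ x` with `q ∣ f(p)` and its
expected value `ρ(q) π(x) / φ(q)`, where `ρ(q)` is the number of the root classes. -/
noncomputable def countError (f : ℤ[X]) (x q : ℕ) : ℝ :=
  |(primeValues f x q : ℝ) -
    ((rootClasses f q).card : ℝ) * ((primePi x : ℝ) / (Nat.totient q : ℝ))|

/-- The sum over the squarefree `q ≤ Q` of `τ(q)^T` times both errors. -/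
noncomputable def total (T : ℕ) (f : ℤ[X]) (x Q : ℕ) : ℝ :=
  ∑ q ∈ (Icc 1 Q).filter Squarefree,
    (q.divisors.card : ℝ) ^ T * (classError f x q + countError f x q)

theorem coprime_of_irreducible (f g : ℤ[X]) (hf : Irreducible f) (hf1 : f.natDegree ≠ 0)
    (hf2 : 0 < f.leadingCoeff) (hg : Irreducible g) (hg2 : 0 < g.leadingCoeff) (hne : f ≠ g) :
    IsCoprime (f.map (Int.castRingHom ℚ)) (g.map (Int.castRingHom ℚ)) := by
  have pf := hf.isPrimitive hf1
  have if' : Irreducible (f.map (Int.castRingHom ℚ)) :=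
    (IsPrimitive.Int.irreducible_iff_irreducible_map_cast pf).1 hf
  rw [if'.coprime_iff_not_dvd]
  intro hdvd
  have h1 : f ∣ g := (IsPrimitive.Int.dvd_iff_map_cast_dvd_map_cast f g pf).2 hdvd
  have h2 : Associated f g := (hf.dvd_irreducible_iff_associated hg).1 h1
  obtain ⟨u, hu⟩ := h2
  obtain ⟨c, hc, hcu⟩ := Polynomial.isUnit_iff.1 u.isUnit
  rw [Int.isUnit_iff] at hc
  rcases hc with rfl | rfl
  · apply hne
    rw [← hu, ← hcu, map_one, mul_one]
  · have : g.leadingCoeff = - f.leadingCoeff := by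
      rw [← hu, ← hcu]
      simp
    omega

theorem main (k D T U : ℕ) (ε : ℝ) (hε : 0 < ε) : ∃ B x₀ : ℕ, ∀ x : ℕ, x₀ ≤ x → ∀ Q : ℕ,
    (Q : ℝ) ≤ (x : ℝ) ^ (1 - ε) → ∀ F : Finset ℤ[X],
      (∀ f ∈ F, f.IsPrimitive ∧ f.natDegree ≤ k ∧ ∀ i, |f.coeff i| ≤ (x : ℤ) ^ D) →
      (∀ f ∈ F, ∀ g ∈ F, f ≠ g →
        IsCoprime (f.map (Int.castRingHom ℚ)) (g.map (Int.castRingHom ℚ))) →
      (∀ f ∈ F, x / Real.log x ^ U < total T f x Q) →
      (F.card : ℝ) ≤ (Q : ℝ) ^ 2 / x * Real.log x ^ B := by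
  obtain ⟨M1, hM1⟩ : ∃ M1, M1 = 2 ^ (2 * (T + k) + 1) := ⟨_, rfl⟩
  obtain ⟨M2, hM2⟩ : ∃ M2, M2 = 2 ^ (T + 1) := ⟨_, rfl⟩
  obtain ⟨V, hV⟩ : ∃ V, V = M1 + U + 1 := ⟨_, rfl⟩
  obtain ⟨B, N0, H⟩ := Pool.Agent.Y882.EHF.few (V + U + 1)
  obtain ⟨D1, x1, hsys⟩ := Pool.Agent.X60.PolyFam.exists_systems k D
  obtain ⟨C, hC0, hC⟩ := Pool.Agent.Helper112.divisor_bound (ε / (4 * (D1 + 1))) (by positivity)
  have ev : ∀ᶠ X : ℝ in atTop, max 4 (16 * 2 ^ M1) ≤ Real.log X ∧
      4 * 2 ^ M2 * Real.log X ^ (M2 + U) ≤ X ^ ε ∧ 4 * C * Real.log X ^ B ≤ X ^ (ε / 2) ∧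
      1 * Real.log X ^ B ≤ X ^ ε :=
    (Real.tendsto_log_atTop.eventually (eventually_ge_atTop _)).and
      ((Pool.Agent.H398R2.BV.ev_log _ _ ε hε).and
        ((Pool.Agent.H398R2.BV.ev_log _ _ (ε / 2) (by positivity)).and
          (Pool.Agent.H398R2.BV.ev_log _ _ ε hε)))
  obtain ⟨x2, hx2⟩ := eventually_atTop.1 ((tendsto_natCast_atTop_atTop (R := ℝ)).eventually ev)
  refine ⟨B, max (max N0 x1) (max x2 3), fun x hx Q hQ F hF hco hbad => ?_⟩
  have hxN0 : N0 ≤ x := ((le_max_left _ _).trans (le_max_left _ _)).trans hx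
  have hxx1 : x1 ≤ x := ((le_max_right _ _).trans (le_max_left _ _)).trans hx
  have hxx2 : x2 ≤ x := ((le_max_left _ _).trans (le_max_right _ _)).trans hx
  have hx3 : 3 ≤ x := ((le_max_right _ _).trans (le_max_right _ _)).trans hx
  obtain ⟨e1, e2, e3, e4⟩ := hx2 x hxx2
  have hx0 : (0 : ℝ) < x := by exact_mod_cast (by omega : 0 < x)
  have hx1r : (1 : ℝ) ≤ x := by exact_mod_cast (by omega : 1 ≤ x)
  obtain ⟨L, hL⟩ : ∃ L : ℝ, L = Real.log x := ⟨_, rfl⟩
  rw [← hL] at e1 e2 e3 e4 hbad ⊢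
  have hL4 : 4 ≤ L := (le_max_left _ _).trans e1
  have hL16 : 16 * 2 ^ M1 ≤ L := (le_max_right _ _).trans e1
  have hL0 : 0 < L := by linarith
  have hQx : Q ≤ x := by
    have : (Q : ℝ) ≤ x := hQ.trans (by
      calc (x : ℝ) ^ (1 - ε) ≤ (x : ℝ) ^ (1 : ℝ) :=
            Real.rpow_le_rpow_of_exponent_le hx1r (by linarith)
        _ = x := Real.rpow_one _)
    exact_mod_cast this
  have hsplit : (x : ℝ) ^ (1 - ε) * (x : ℝ) ^ ε = x := by
    rw [← Real.rpow_add hx0]
    norm_num
  have hlogQ : 1 + Real.log Q ≤ 2 * L := by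
    rcases Nat.eq_zero_or_pos Q with h | h
    · rw [h, Nat.cast_zero, Real.log_zero]; linarith
    · have : Real.log Q ≤ L := by
        rw [hL]
        exact Real.log_le_log (by exact_mod_cast h) (by exact_mod_cast hQx)
      linarith
  have hlogQ0 : 0 ≤ 1 + Real.log Q := by
    have := Real.log_natCast_nonneg Q
    linarith
  obtain ⟨c, hc1, hc2⟩ := hsys x hxx1 F hF hco
  refine (H x hxN0 Q ?_ ℤ[X] F c ?_ ?_).trans (le_of_eq (by rw [← hL]))
  · rw [← hL]
    calc (Q : ℝ) * L ^ B ≤ (x : ℝ) ^ (1 - ε) * (x : ℝ) ^ ε := by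
          apply mul_le_mul hQ _ (by positivity) (by positivity)
          linarith
      _ = x := hsplit
  · intro f hf g hg hfg
    rw [← hL]
    obtain ⟨s, hs1, hs2⟩ := hc2 f hf g hg hfg
    have h1 : (Pool.Agent.Y882.EHF.coinc (c f) (c g) Q : ℝ) ≤ 4 * C * (x : ℝ) ^ (ε / 4) := by
      have h2 : (Pool.Agent.Y882.EHF.coinc (c f) (c g) Q : ℝ) ≤
          ∑ i, ((s i).divisors.card : ℝ) := by
        exact_mod_cast hs2 Q
      refine h2.trans ?_
      calc ∑ i, ((s i).divisors.card : ℝ) ≤ ∑ _i : Fin 4, C * (x : ℝ) ^ (ε / 4) := by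
            apply sum_le_sum
            intro i _
            refine (hC (s i) (hs1 i).1).trans ?_
            apply mul_le_mul_of_nonneg_left _ hC0.le
            have h3 : ((s i : ℕ) : ℝ) ≤ (x : ℝ) ^ (D1 : ℝ) := by
              rw [Real.rpow_natCast]
              exact_mod_cast (hs1 i).2
            calc ((s i : ℕ) : ℝ) ^ (ε / (4 * (D1 + 1))) ≤
                ((x : ℝ) ^ (D1 : ℝ)) ^ (ε / (4 * (D1 + 1))) :=
                  Real.rpow_le_rpow (by positivity) h3 (by positivity)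
              _ = (x : ℝ) ^ (D1 * (ε / (4 * (D1 + 1)))) := (Real.rpow_mul hx0.le _ _).symm
              _ ≤ (x : ℝ) ^ (ε / 4) := by
                apply Real.rpow_le_rpow_of_exponent_le hx1r
                rw [mul_div_assoc', div_le_div_iff₀ (by positivity) (by positivity)]
                nlinarith
        _ = _ := by
          rw [sum_const, card_univ, Fintype.card_fin, nsmul_eq_mul]
          push_cast
          ring
    calc (Pool.Agent.Y882.EHF.coinc (c f) (c g) Q : ℝ) * (Q * L ^ B) ≤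
        (4 * C * (x : ℝ) ^ (ε / 4)) * ((x : ℝ) ^ (1 - ε) * L ^ B) := by
          apply mul_le_mul h1 _ (by positivity) (by positivity)
          exact mul_le_mul_of_nonneg_right hQ (by positivity)
      _ = (4 * C * L ^ B) * ((x : ℝ) ^ (ε / 4) * (x : ℝ) ^ (1 - ε)) := by ring
      _ ≤ (x : ℝ) ^ (ε / 2) * ((x : ℝ) ^ (ε / 4) * (x : ℝ) ^ (1 - ε)) :=
          mul_le_mul_of_nonneg_right e3 (by positivity)
      _ = (x : ℝ) ^ (ε / 2 + (ε / 4 + (1 - ε))) := by
          rw [Real.rpow_add hx0, Real.rpow_add hx0]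
      _ ≤ (x : ℝ) ^ (1 : ℝ) := Real.rpow_le_rpow_of_exponent_le hx1r (by linarith)
      _ = x := Real.rpow_one _
  · intro f hf
    rw [← hL]
    obtain ⟨S, hS⟩ : ∃ S : ℝ, S = Pool.Agent.Y882.EHF.S x Q (c f) := ⟨_, rfl⟩
    rw [← hS]
    have h1 := Pool.Agent.X60.PolyFam.total_le f (hF f hf).1 k (hF f hf).2.1 x Q T hQx (c f)
      (hc1 f hf) (L ^ V) (by positivity)
    rw [← hM1, ← hM2] at h1
    have h2 : ∑ q ∈ (Icc 1 Q).filter (fun q => (c f q).Coprime q),
        Pool.Agent.X60.PolyFam.Er x q (c f q) = S := by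
      rw [hS]; rfl
    rw [h2] at h1
    have h3 : x / L ^ U < 2 * (L ^ V * S + 2 * x / L ^ V * (1 + Real.log Q) ^ M1) +
        Q * (1 + Real.log Q) ^ M2 := lt_of_lt_of_le (hbad f hf) h1
    have h4 : 2 * (2 * x / L ^ V * (1 + Real.log Q) ^ M1) ≤ x / (4 * L ^ U) := by
      calc 2 * (2 * x / L ^ V * (1 + Real.log Q) ^ M1) ≤
          2 * (2 * x / L ^ V * (2 * L) ^ M1) := by gcongr
        _ = (4 * 2 ^ M1) * x / (L * L ^ U) := by
          rw [hV, pow_add, pow_add, mul_pow]
          field_simp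
          ring
        _ ≤ x / (4 * L ^ U) := by
          rw [div_le_div_iff₀ (by positivity) (by positivity)]
          have : 0 ≤ x * L ^ U := by positivity
          nlinarith
    have h5 : Q * (1 + Real.log Q) ^ M2 ≤ x / (4 * L ^ U) := by
      rw [le_div_iff₀ (by positivity)]
      calc Q * (1 + Real.log Q) ^ M2 * (4 * L ^ U) ≤
          (x : ℝ) ^ (1 - ε) * (2 * L) ^ M2 * (4 * L ^ U) := by gcongr
        _ = (x : ℝ) ^ (1 - ε) * (4 * 2 ^ M2 * L ^ (M2 + U)) := by
          rw [mul_pow, pow_add]; ring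
        _ ≤ (x : ℝ) ^ (1 - ε) * (x : ℝ) ^ ε := by gcongr
        _ = x := hsplit
    have h6 : x / (2 * L ^ U) < 2 * (L ^ V * S) := by
      have e : (x : ℝ) / L ^ U = x / (2 * L ^ U) + x / (4 * L ^ U) + x / (4 * L ^ U) := by
        field_simp
        ring
      rw [e] at h3
      linarith
    have h7 : x < 4 * L ^ U * L ^ V * S := by
      rw [div_lt_iff₀ (by positivity)] at h6
      linarith
    rw [div_lt_iff₀ (by positivity)]
    have hS0 : 0 < S := by
      by_contra hcon
      have h8 : 4 * L ^ U * L ^ V * S ≤ 0 :=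
        mul_nonpos_of_nonneg_of_nonpos (by positivity) (not_lt.1 hcon)
      linarith
    calc (x : ℝ) < 4 * L ^ U * L ^ V * S := h7
      _ ≤ L * L ^ U * L ^ V * S := by gcongr
      _ = S * L ^ (V + U + 1) := by rw [pow_add, pow_add, pow_one]; ring

/-- **The bound of Elliott and Halberstam for the roots of polynomials.** Let `k`, `D`, `T`, `U` and
`ε > 0` be given. There are `B` and `x₀` such that for all `x ≥ x₀` and all `Q ≤ x^(1 - ε)`:

(1) in every finite family of pairwise coprime (over `ℚ`) primitive integer polynomials of degree at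
most `k` with coefficients at most `x^D` in absolute value, all but at most `(Q² / x) (log x)^B`
members `f` satisfy `∑ τ(q)^T (classError + countError) ≤ x / (log x)^U`, the sum being over the
squarefree `q ≤ Q`;

(2) the same for all the irreducible integer polynomials of degree between `1` and `k` with positive
leading coefficient and with coefficients at most `x^D` in absolute value. -/
theorem result (k D T U : ℕ) (ε : ℝ) (hε : 0 < ε) : ∃ B x₀ : ℕ, ∀ x : ℕ, x₀ ≤ x → ∀ Q : ℕ,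
    (Q : ℝ) ≤ (x : ℝ) ^ (1 - ε) →
    (∀ F : Finset ℤ[X],
      (∀ f ∈ F, f.IsPrimitive ∧ f.natDegree ≤ k ∧ ∀ i, |f.coeff i| ≤ (x : ℤ) ^ D) →
      (∀ f ∈ F, ∀ g ∈ F, f ≠ g →
        IsCoprime (f.map (Int.castRingHom ℚ)) (g.map (Int.castRingHom ℚ))) →
      (({f ∈ F | x / Real.log x ^ U < total T f x Q} : Finset ℤ[X]).card : ℝ) ≤
        (Q : ℝ) ^ 2 / x * Real.log x ^ B) ∧
    (({f : ℤ[X] | Irreducible f ∧ 0 < f.natDegree ∧ f.natDegree ≤ k ∧ 0 < f.leadingCoeff ∧
        (∀ i, |f.coeff i| ≤ (x : ℤ) ^ D) ∧ x / Real.log x ^ U < total T f x Q} :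
      Set ℤ[X]).Finite ∧
     (({f : ℤ[X] | Irreducible f ∧ 0 < f.natDegree ∧ f.natDegree ≤ k ∧ 0 < f.leadingCoeff ∧
        (∀ i, |f.coeff i| ≤ (x : ℤ) ^ D) ∧ x / Real.log x ^ U < total T f x Q} :
      Set ℤ[X]).ncard : ℝ) ≤ (Q : ℝ) ^ 2 / x * Real.log x ^ B) := by
  classical
  obtain ⟨B, x₀, H⟩ := main k D T U ε hε
  refine ⟨B, x₀, fun x hx Q hQ => ⟨fun F hF hco => ?_, ?_⟩⟩
  · apply H x hx Q hQ
    · intro f hf
      exact hF f (mem_filter.1 hf).1
    · intro f hf g hg hfg
      exact hco f (mem_filter.1 hf).1 g (mem_filter.1 hg).1 hfg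
    · intro f hf
      exact (mem_filter.1 hf).2
  · have hfin : ({f : ℤ[X] | Irreducible f ∧ 0 < f.natDegree ∧ f.natDegree ≤ k ∧
        0 < f.leadingCoeff ∧ (∀ i, |f.coeff i| ≤ (x : ℤ) ^ D) ∧
        x / Real.log x ^ U < total T f x Q} : Set ℤ[X]).Finite := by
      have h1 : Set.Finite {v : Fin (k + 1) → ℤ | ∀ i, v i ∈ Set.Icc (-(x : ℤ) ^ D) ((x : ℤ) ^ D)} :=
        Set.Finite.pi' (fun _ => Set.finite_Icc _ _)
      refine Set.Finite.of_finite_image (f := fun f : ℤ[X] => fun i : Fin (k + 1) => f.coeff i)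
        (h1.subset ?_) ?_
      · rintro _ ⟨f, hf, rfl⟩ i
        exact abs_le.1 (hf.2.2.2.2.1 i)
      · intro f hf g hg hfg
        ext i
        by_cases hi : i < k + 1
        · exact congrFun hfg ⟨i, hi⟩
        · have h2 := hf.2.2.1
          have h3 := hg.2.2.1
          rw [coeff_eq_zero_of_natDegree_lt (by omega), coeff_eq_zero_of_natDegree_lt (by omega)]
    refine ⟨hfin, ?_⟩
    rw [Set.ncard_eq_toFinset_card _ hfin]
    apply H x hx Q hQ
    · intro f hf
      rw [Set.Finite.mem_toFinset] at hf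
      exact ⟨hf.1.isPrimitive hf.2.1.ne', hf.2.2.1, hf.2.2.2.2.1⟩
    · intro f hf g hg hfg
      rw [Set.Finite.mem_toFinset] at hf hg
      exact coprime_of_irreducible f g hf.1 hf.2.1.ne' hf.2.2.2.1 hg.1 hg.2.2.2.1 hfg
    · intro f hf
      rw [Set.Finite.mem_toFinset] at hf
      exact hf.2.2.2.2.2

end Pool.Agent.Results.MP_a78e8f_nt.PolynomialsAtPrimes
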