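import Pool.Agent.Y856.Metric.Prob

/-!
# The bound of Elliott and Halberstam holds almost surely for random classes

Let `T(q)` be random finite sets of integers on any probability space, with arbitrary dependence between the
moduli, such that `T(q)` represents a given class modulo `q` with probability at most `κ q ^ (-s)`, `s ≤ 1`
(for instance `s = 1`: one random class whose law has a bounded density with respect to the uniform law; or
about `q ^ (1 - s)` of them). Then for every level `θ < 1 / (2 - s)`, in particular for every `θ < 1` if `s = 1`,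
almost surely the bound of Elliott and Halberstam holds over the classes in `T(q)`, for all `x` and all powers of
the logarithm, with the maxima over the lengths `y ≤ x` and over the classes in `T(q)` inside the sum.
-/

set_option autoImplicit false

namespace Pool.Agent.Results.MP_a78e8f_nt.RandomClasses

open Finset MeasureTheory

/-- `π(y)`: the number of primes `p ≤ y`. -/
noncomputable def primePi (y : ℕ) : ℕ := ((Icc 1 y).filter (fun p : ℕ => p.Prime)).card

/-- `π(y; q, a)`: the number of primes `p ≤ y` with `p ≡ a (mod q)`, where `a` is an integer. -/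
noncomputable def primePiAP (y q : ℕ) (a : ℤ) : ℕ :=
  ((Icc 1 y).filter (fun p : ℕ => p.Prime ∧ (p : ℤ) ≡ a [ZMOD q])).card

/-- The bound of Elliott and Halberstam at level `θ` with the residues `a` modulo `q` restricted to the finite set
`T(q)`: for every `A > 0` there is `C` such that for all integers `x > 2` and all choices of lengths `y(q) ≤ x` and of
residues `a(q)` the sum of `|π(y(q); q, a(q)) - π(y(q))/φ(q)|` over all `q ≤ x ^ θ` with `a(q) ∈ T(q)` and
`(a(q), q) = 1` is at most `C x / (log x) ^ A`. (Thus the maxima over `y ≤ x` and over `a ∈ T(q)` stand inside the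
sum over `q`.) -/
def EHOver (θ : ℝ) (T : ℕ → Finset ℤ) : Prop :=
  ∀ A : ℝ, 0 < A → ∃ C : ℝ, ∀ x : ℕ, 2 < x → ∀ y : ℕ → ℕ, (∀ q, y q ≤ x) → ∀ a : ℕ → ℤ,
    ∑ q ∈ (Icc 1 ⌊(x : ℝ) ^ θ⌋₊).filter (fun q => a q ∈ T q ∧ Int.gcd (a q) q = 1),
      |(primePiAP (y q) q (a q) : ℝ) - (primePi (y q) : ℝ) / (Nat.totient q : ℝ)| ≤
      C * (x / Real.log x ^ A)

/-- **The bound of Elliott and Halberstam for random classes.** Let `s ≤ 1` and `θ (2 - s) < 1`. On a probability
space let a random finite set `T(q)` of integers be given for every modulus `q` (no independence is assumed), such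
that for every `q ≥ 1` and every class `l` modulo `q` the set `T(q)` represents `l` with probability at most
`κ q ^ (-s)`. Then, almost surely, the bound of Elliott and Halberstam holds at level `θ` over the classes in the
sets `T(q)`. -/
theorem result {Ω : Type*} [MeasurableSpace Ω] (μ : Measure Ω) [IsProbabilityMeasure μ]
    (T : ℕ → Ω → Finset ℤ) (s κ θ : ℝ) (hs : s ≤ 1) (hθ : θ * (2 - s) < 1)
    (hT : ∀ q : ℕ, 1 ≤ q → ∀ l : ℤ, MeasurableSet {ω | ∃ a ∈ T q ω, a ≡ l [ZMOD q]})
    (hlaw : ∀ q : ℕ, 1 ≤ q → ∀ l : ℤ, μ.real {ω | ∃ a ∈ T q ω, a ≡ l [ZMOD q]} ≤ κ * (q : ℝ) ^ (-s)) :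
    ∀ᵐ ω ∂μ, EHOver θ (fun q => T q ω) :=
  Pool.Agent.Y856.prob_main μ T s κ θ hs hT hlaw hθ

end Pool.Agent.Results.MP_a78e8f_nt.RandomClasses
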