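import Pool.Agent.TH926.EH.Lg
import Pool.Agent.H398R2.BA1

/-!
# The Elliott-Halberstam bound on average over the worst classes

The maximum over the classes is replaced by the mean over an arbitrary set of at least `φ(q) / D`
classes, e.g. the `φ(q) / D` classes with the largest errors, where `D` is as large as
`x / (Q (log x)^B)`. For `Q = D = √x / (log x)^(B/2)` this is the theorem of Bombieri and Vinogradov,
for `D = 1` the (`L¹` form of the) theorem of Barban, Davenport and Halberstam; the conjecture asks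
for `Q = D = x^θ`. In particular, inside the sum over `q ≤ Q` one can take the maximum over the divisors
`d ≤ D` of `q` and over the classes `b` modulo `d` of the mean of the errors over the classes `a`
modulo `q` with `a ≡ b (mod d)`.
-/

set_option autoImplicit false

namespace Pool.Agent.Results.MP_a78e8f_nt.WorstClasses

open Finset Filter

/-- `π(x)` -/
def primePi (x : ℕ) : ℕ := ((Icc 1 x).filter (fun p : ℕ => p.Prime)).card

/-- `π(x; q, a)` -/
def primePiAP (x q a : ℕ) : ℕ := ((Icc 1 x).filter (fun p : ℕ => p.Prime ∧ p ≡ a [MOD q])).card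

/-- `|π(x; q, a) - π(x) / φ(q)|` -/
noncomputable def err (x q a : ℕ) : ℝ :=
  |(primePiAP x q a : ℝ) - (primePi x : ℝ) / (Nat.totient q : ℝ)|

/-- The classes `0 ≤ a < q` prime to `q`. -/
def reduced (q : ℕ) : Finset ℕ := (range q).filter (fun a => a.Coprime q)

/-- The mean of the errors over a set `T` of classes. -/
noncomputable def mean (x q : ℕ) (T : Finset ℕ) : ℝ := (∑ a ∈ T, err x q a) / T.card

/-- The number of the reduced classes modulo `q` which are `≡ b` modulo the divisor `d`. -/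
theorem card_fiber (q d b : ℕ) (hq : 1 ≤ q) (hd : d ∣ q) (hb : b.Coprime d) :
    d.totient * ((reduced q).filter (fun a => a ≡ b [MOD d])).card = q.totient := by
  classical
  have : NeZero q := ⟨by omega⟩
  have : NeZero d := ⟨fun h => by rw [h, zero_dvd_iff] at hd; omega⟩
  have hsurj : Function.Surjective (ZMod.unitsMap hd) := ZMod.unitsMap_surjective hd
  have h1 : ∀ v w : (ZMod d)ˣ, ((univ : Finset (ZMod q)ˣ).filter (fun g => ZMod.unitsMap hd g = v)).card =
      ((univ : Finset (ZMod q)ˣ).filter (fun g => ZMod.unitsMap hd g = w)).card := fun v w =>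
    MonoidHom.card_fiber_eq_of_mem_range (ZMod.unitsMap hd) (hsurj v) (hsurj w)
  have h2 : Fintype.card (ZMod q)ˣ = ∑ v : (ZMod d)ˣ,
      ((univ : Finset (ZMod q)ˣ).filter (fun g => ZMod.unitsMap hd g = v)).card :=
    card_eq_sum_card_fiberwise (fun _ _ => mem_univ _)
  have h3 : Fintype.card (ZMod q)ˣ = d.totient *
      ((univ : Finset (ZMod q)ˣ).filter
        (fun g => ZMod.unitsMap hd g = ZMod.unitOfCoprime b hb)).card := by
    rw [h2, sum_congr rfl (fun v _ => h1 v (ZMod.unitOfCoprime b hb)), sum_const, card_univ,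
      ZMod.card_units_eq_totient, smul_eq_mul]
  rw [ZMod.card_units_eq_totient] at h3
  rw [h3]
  congr 1
  unfold reduced
  rw [filter_filter]
  refine card_bij' (fun a ha => ZMod.unitOfCoprime a (mem_filter.1 ha).2.1)
    (fun g _ => (g : ZMod q).val) ?_ ?_ ?_ ?_
  · intro a ha
    rw [mem_filter] at ha ⊢
    refine ⟨mem_univ _, ?_⟩
    apply Units.ext
    rw [ZMod.unitsMap_val]
    simp only [ZMod.coe_unitOfCoprime, ZMod.cast_natCast hd]
    exact (ZMod.natCast_eq_natCast_iff _ _ _).2 ha.2.2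
  · intro g hg
    rw [mem_filter] at hg ⊢
    refine ⟨mem_range.2 (ZMod.val_lt _), ZMod.val_coe_unit_coprime g, ?_⟩
    have h5 := congrArg (fun u : (ZMod d)ˣ => (u : ZMod d)) hg.2
    simp only [ZMod.unitsMap_val, ZMod.coe_unitOfCoprime] at h5
    rw [← ZMod.natCast_eq_natCast_iff, ← h5, ← ZMod.natCast_val]
  · intro a ha
    rw [mem_filter, mem_range] at ha
    simp only [ZMod.coe_unitOfCoprime]
    exact ZMod.val_cast_of_lt ha.1
  · intro g _
    apply Units.ext
    simp

theorem le_card_mul_totient (q : ℕ) (hq : q ≠ 0) : q ≤ q.divisors.card * q.totient := by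
  calc q = ∑ d ∈ q.divisors, d.totient := (Nat.sum_totient q).symm
    _ ≤ ∑ _d ∈ q.divisors, q.totient := by
        apply sum_le_sum
        intro d hd
        exact Nat.le_of_dvd (Nat.totient_pos.2 (Nat.pos_of_ne_zero hq))
          (Nat.totient_dvd_of_dvd (Nat.dvd_of_mem_divisors hd))
    _ = _ := by rw [sum_const, smul_eq_mul]

open Pool.Agent.TH926.EH

/-- the mean of the errors over a set of classes -/
theorem mean_le (x q D : ℕ) (V : ℝ) (T : Finset ℕ) (hq : 1 ≤ q) (hT : T ⊆ reduced q)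
    (hD : q.totient ≤ D * T.card) :
    mean x q T ≤ low2 V x q + Real.sqrt (D * ((q.divisors.card : ℝ) ^ 1 / q)) *
      Real.sqrt (∑ a ∈ range q, ‖Pool.Agent.TH926.EH.Al x q (cut2 V x) (a : ZMod q)‖ ^ 2) := by
  have hφ : 0 < q.totient := Nat.totient_pos.2 (by omega)
  have hc : 0 < T.card := by
    by_contra h
    have h1 : T.card = 0 := by omega
    rw [h1, mul_zero] at hD
    omega
  have hc0 : (0 : ℝ) < T.card := by exact_mod_cast hc
  have hq0 : (0 : ℝ) < q := by exact_mod_cast (by omega : 0 < q)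
  obtain ⟨A, hA⟩ : ∃ A, A = ∑ a ∈ range q, ‖Pool.Agent.TH926.EH.Al x q (cut2 V x) (a : ZMod q)‖ ^ 2 :=
    ⟨_, rfl⟩
  have hA0 : 0 ≤ A := by rw [hA]; positivity
  obtain ⟨S, hS⟩ : ∃ S, S = ∑ a ∈ T, ‖Pool.Agent.TH926.EH.Al x q (cut2 V x) (a : ZMod q)‖ := ⟨_, rfl⟩
  rw [← hA]
  have h1 : mean x q T ≤ low2 V x q + S / T.card := by
    unfold mean
    rw [div_le_iff₀ hc0, add_mul, div_mul_cancel₀ _ hc0.ne']
    calc ∑ a ∈ T, err x q a ≤
        ∑ a ∈ T, (low2 V x q + ‖Pool.Agent.TH926.EH.Al x q (cut2 V x) (a : ZMod q)‖) := by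
          apply sum_le_sum
          intro a ha
          have h2 := hT ha
          unfold reduced at h2
          rw [mem_filter] at h2
          exact E_le2 V x q a hq h2.2
      _ = _ := by rw [sum_add_distrib, sum_const, nsmul_eq_mul, hS, mul_comm]
  have h2 : S ^ 2 ≤ T.card * A := by
    calc S ^ 2 ≤ T.card * ∑ a ∈ T, ‖Pool.Agent.TH926.EH.Al x q (cut2 V x) (a : ZMod q)‖ ^ 2 := by
          rw [hS]
          exact sq_sum_le_card_mul_sum_sq
      _ ≤ T.card * A := by
          apply mul_le_mul_of_nonneg_left _ hc0.le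
          rw [hA]
          apply sum_le_sum_of_subset_of_nonneg
          · exact hT.trans (filter_subset _ _)
          · intro _ _ _
            positivity
  have h3 : (S / T.card) ^ 2 ≤ (D * ((q.divisors.card : ℝ) ^ 1 / q)) * A := by
    have h4 : (q : ℝ) ≤ q.divisors.card * (D * T.card) := by
      have : q ≤ q.divisors.card * (D * T.card) :=
        (le_card_mul_totient q (by omega)).trans (Nat.mul_le_mul_left _ hD)
      exact_mod_cast this
    calc (S / T.card) ^ 2 = S ^ 2 / T.card ^ 2 := div_pow _ _ _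
      _ ≤ (T.card * A) / T.card ^ 2 := by gcongr
      _ = A / T.card := by field_simp
      _ = (q / q) * A / T.card := by rw [div_self hq0.ne', one_mul]
      _ ≤ ((q.divisors.card * (D * T.card)) / q) * A / T.card := by gcongr
      _ = _ := by field_simp
  have h4 : S / T.card ≤ Real.sqrt (D * ((q.divisors.card : ℝ) ^ 1 / q)) * Real.sqrt A := by
    rw [← Real.sqrt_mul (by positivity)]
    exact Real.le_sqrt_of_sq_le h3
  linarith

theorem main (U : ℕ) : ∃ B x₀ : ℕ, ∀ x : ℕ, x₀ ≤ x → ∀ Q D : ℕ, (D : ℝ) * Q * Real.log x ^ B ≤ x →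
    ∀ T : ℕ → Finset ℕ, (∀ q ∈ Icc 1 Q, T q ⊆ reduced q ∧ q.totient ≤ D * (T q).card) →
      ∑ q ∈ Icc 1 Q, mean x q (T q) ≤ x / Real.log x ^ U := by
  obtain ⟨C, hC0, x1, hx1, hlow⟩ := low_total2 (U + 1)
  have ev := ((Real.tendsto_log_atTop.comp (tendsto_natCast_atTop_atTop (R := ℝ))).eventually_ge_atTop
    (max (C + 1) 6208))
  obtain ⟨x2, hx2⟩ := eventually_atTop.1 ev
  refine ⟨5 * (U + 5) + 2 + 2 * (U + 1) + 1, max x1 x2, fun x hx Q D hQD T hT => ?_⟩
  have hxx1 : x1 ≤ x := (le_max_left _ _).trans hx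
  have hxx2 : x2 ≤ x := (le_max_right _ _).trans hx
  have hx3 : 3 ≤ x := hx1.trans hxx1
  have hl := hx2 x hxx2
  simp only [Function.comp] at hl
  obtain ⟨L, hL⟩ : ∃ L : ℝ, L = Real.log x := ⟨_, rfl⟩
  rw [← hL] at hl hQD ⊢
  have hLC : C + 1 ≤ L := (le_max_left _ _).trans hl
  have hL6 : 6208 ≤ L := (le_max_right _ _).trans hl
  have hL1 : 1 ≤ L := by linarith
  have hL0 : 0 < L := by linarith
  have hx0 : (0 : ℝ) < x := by exact_mod_cast (by omega : 0 < x)
  rcases Nat.eq_zero_or_pos Q with hQ0 | hQ1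
  · rw [hQ0]
    simp only [show Icc 1 0 = (∅ : Finset ℕ) from rfl, sum_empty]
    positivity
  have hD1 : 1 ≤ D := by
    by_contra h
    have h1 := (hT 1 (mem_Icc.2 ⟨le_rfl, hQ1⟩)).2
    have h2 : D = 0 := by omega
    rw [h2, zero_mul, Nat.totient_one] at h1
    omega
  have hD1r : (1 : ℝ) ≤ D := by exact_mod_cast hD1
  have hQ1r : (1 : ℝ) ≤ Q := by exact_mod_cast hQ1
  have hQ0r : (0 : ℝ) ≤ Q := by linarith
  have hQL : ∀ m, m ≤ 5 * (U + 5) + 2 + 2 * (U + 1) + 1 → (Q : ℝ) * L ^ m ≤ x := by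
    intro m hm
    calc (Q : ℝ) * L ^ m ≤ Q * L ^ (5 * (U + 5) + 2 + 2 * (U + 1) + 1) := by
          apply mul_le_mul_of_nonneg_left (pow_le_pow_right₀ hL1 hm) hQ0r
      _ = 1 * Q * L ^ (5 * (U + 5) + 2 + 2 * (U + 1) + 1) := by ring
      _ ≤ D * Q * L ^ (5 * (U + 5) + 2 + 2 * (U + 1) + 1) := by gcongr
      _ ≤ x := hQD
  have hQx : Q ≤ x := by
    have := hQL 0 (by omega)
    rw [pow_zero, mul_one] at this
    exact_mod_cast this
  obtain ⟨V, hV⟩ : ∃ V : ℝ, V = L ^ (U + 5) := ⟨_, rfl⟩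
  have hV0 : 0 < V := by rw [hV]; positivity
  have hVL : L ≤ V := by
    rw [hV]
    calc L = L ^ 1 := (pow_one L).symm
      _ ≤ L ^ (U + 5) := pow_le_pow_right₀ hL1 (by omega)
  have s1 : ∑ q ∈ Icc 1 Q, low2 V x q ≤ C * (x / L ^ (U + 1)) := by
    have := hlow x hxx1 V (by rw [← hL, hV]) Q (by rw [← hL]; exact hQL _ (by omega))
    rw [← hL] at this
    exact this
  have s2 := high_sum2 x hx3 V (by rw [← hL]; exact hVL) Q hQ1 hQx
  have s3 : ∑ q ∈ Icc 1 Q, ((D : ℝ) * ((q.divisors.card : ℝ) ^ 1 / q)) ≤ D * (4 * L ^ 2) := by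
    rw [← mul_sum]
    apply mul_le_mul_of_nonneg_left _ (by linarith)
    refine (Pool.Agent.H398R2.BV.sum_card_pow_div 1 Q).trans ?_
    rw [pow_one]
    have h1 : Real.log Q ≤ L := by
      rw [hL]
      exact Real.log_le_log (by linarith) (by exact_mod_cast hQx)
    have h2 : 0 ≤ Real.log Q := Real.log_natCast_nonneg Q
    nlinarith
  have s4 : ∑ q ∈ Icc 1 Q, Real.sqrt ((D : ℝ) * ((q.divisors.card : ℝ) ^ 1 / q)) *
      Real.sqrt (∑ a ∈ range q, ‖Pool.Agent.TH926.EH.Al x q (cut2 V x) (a : ZMod q)‖ ^ 2) ≤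
      x / L ^ (U + 1) := by
    calc _ ≤ Real.sqrt (∑ q ∈ Icc 1 Q, ((D : ℝ) * ((q.divisors.card : ℝ) ^ 1 / q))) *
          Real.sqrt (∑ q ∈ Icc 1 Q,
            ∑ a ∈ range q, ‖Pool.Agent.TH926.EH.Al x q (cut2 V x) (a : ZMod q)‖ ^ 2) := by
          apply Real.sum_sqrt_mul_sqrt_le
          · intro q; positivity
          · intro q; positivity
      _ ≤ Real.sqrt (D * (4 * L ^ 2)) * Real.sqrt (1552 * Q * x * V ^ 5) := by gcongr
      _ = Real.sqrt (D * (4 * L ^ 2) * (1552 * Q * x * V ^ 5)) :=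
          (Real.sqrt_mul (by positivity) _).symm
      _ ≤ x / L ^ (U + 1) := by
          rw [Real.sqrt_le_left (by positivity), div_pow, le_div_iff₀ (by positivity), hV]
          have e : (D : ℝ) * (4 * L ^ 2) * (1552 * Q * x * (L ^ (U + 5)) ^ 5) * (L ^ (U + 1)) ^ 2 =
              6208 * (D * Q * L ^ (5 * (U + 5) + 2 + 2 * (U + 1))) * x := by
            ring
          rw [e]
          have h1 : L * (D * Q * L ^ (5 * (U + 5) + 2 + 2 * (U + 1))) ≤ x := by
            calc _ = D * Q * L ^ (5 * (U + 5) + 2 + 2 * (U + 1) + 1) := by ring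
              _ ≤ x := hQD
          have h2 : 0 ≤ D * Q * L ^ (5 * (U + 5) + 2 + 2 * (U + 1)) := by positivity
          nlinarith
  calc ∑ q ∈ Icc 1 Q, mean x q (T q) ≤ ∑ q ∈ Icc 1 Q, (low2 V x q +
        Real.sqrt ((D : ℝ) * ((q.divisors.card : ℝ) ^ 1 / q)) *
        Real.sqrt (∑ a ∈ range q, ‖Pool.Agent.TH926.EH.Al x q (cut2 V x) (a : ZMod q)‖ ^ 2)) := by
        apply sum_le_sum
        intro q hq
        exact mean_le x q D V (T q) (mem_Icc.1 hq).1 (hT q hq).1 (hT q hq).2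
    _ ≤ C * (x / L ^ (U + 1)) + x / L ^ (U + 1) := by
        rw [sum_add_distrib]
        linarith
    _ = (C + 1) * x / (L * L ^ U) := by rw [pow_succ, mul_comm (L ^ U) L]; ring
    _ ≤ x / L ^ U := by
        rw [div_le_div_iff₀ (by positivity) (by positivity)]
        have : 0 ≤ x * L ^ U := by positivity
        nlinarith

/-- **The bound of Elliott and Halberstam on average over the worst classes.** For every `U` there are
`B` and `x₀` such that for all `x ≥ x₀` and all `Q`, `D` with `D Q (log x)^B ≤ x`: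

(1) for every choice of sets `T q` of at least `φ(q) / D` reduced classes modulo `q` the sum over all
`q ≤ Q` of the mean of `|π(x; q, a) - π(x) / φ(q)|` over `a ∈ T q` is at most `x / (log x)^U`;

(2) for every choice of divisors `d q ≤ D` of the moduli `q` and of reduced classes `b q` modulo `d q`
the sum over all `q ≤ Q` of the mean of `|π(x; q, a) - π(x) / φ(q)|` over the reduced classes `a`
modulo `q` with `a ≡ b q (mod d q)` (there are `φ(q) / φ(d q)` of them) is at most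
`x / (log x)^U`. -/
theorem result (U : ℕ) : ∃ B x₀ : ℕ, ∀ x : ℕ, x₀ ≤ x → ∀ Q D : ℕ,
    (D : ℝ) * Q * Real.log x ^ B ≤ x →
    (∀ T : ℕ → Finset ℕ, (∀ q ∈ Icc 1 Q, T q ⊆ reduced q ∧ q.totient ≤ D * (T q).card) →
      ∑ q ∈ Icc 1 Q, mean x q (T q) ≤ x / Real.log x ^ U) ∧
    (∀ d b : ℕ → ℕ, (∀ q ∈ Icc 1 Q, d q ∣ q ∧ d q ≤ D ∧ (b q).Coprime (d q)) →
      (∀ q ∈ Icc 1 Q,
        (d q).totient * ((reduced q).filter (fun a => a ≡ b q [MOD d q])).card = q.totient) ∧
      ∑ q ∈ Icc 1 Q, mean x q ((reduced q).filter (fun a => a ≡ b q [MOD d q])) ≤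
        x / Real.log x ^ U) := by
  obtain ⟨B, x₀, H⟩ := main U
  refine ⟨B, x₀, fun x hx Q D hQD => ⟨H x hx Q D hQD, fun d b hdb => ?_⟩⟩
  have h1 : ∀ q ∈ Icc 1 Q,
      (d q).totient * ((reduced q).filter (fun a => a ≡ b q [MOD d q])).card = q.totient :=
    fun q hq => card_fiber q (d q) (b q) (mem_Icc.1 hq).1 (hdb q hq).1 (hdb q hq).2.2
  refine ⟨h1, H x hx Q D hQD _ fun q hq => ⟨filter_subset _ _, ?_⟩⟩
  rw [← h1 q hq]
  exact Nat.mul_le_mul_right _ ((Nat.totient_le _).trans (hdb q hq).2.1)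

end Pool.Agent.Results.MP_a78e8f_nt.WorstClasses
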